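import Pool.Agent.Q269.GJ.StC

/-!
# Project GJ, job CLA: the proportion of the good twists in a cell

Adapted from `Pool/Agent/Q251/GR/CLA.lean`.
-/

set_option autoImplicit false
set_option linter.all false

open scoped Classical
open Finset Polynomial

namespace Pool.Agent.Q53.GJ

open Pool.Agent.Q269
open Pool.Agent.Q269.GJ
open Pool.Agent.Q269.GR (F2 cf ev Un Eb dl IsRt gg Bt AA MM ts HU HG Herm hv own Irn Dn pr Fr xi Pfam dg
  Ce IsCe sT erT FxR owR A0R tn XA XB sy)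
open Pool.Agent.Y164.PS (L sg L_comm)

/-! ### congruence of the kernels -/

section congr

variable {F : Type} [Field F] [Algebra F2 F] {n : ℕ}

theorem Kn_congr {J : Type} [Fintype J] {M M' : J → J → F} {dd dd' : J → F}
    {x x' : J → Fin n → Fin n → F2}
    (hM : ∀ i j, j ≠ i → M i j = M' i j) (hd : ∀ i, dd i = dd' i) (hx : ∀ i, x i = x' i) :
    Kn M dd x = Kn M' dd' x' := by
  obtain rfl : dd = dd' := funext hd
  obtain rfl : x = x' := funext hx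
  ext w
  rw [mem_Kn, mem_Kn]
  refine forall_congr' fun i => ?_
  have : eqn M dd x w i = eqn M' dd x w i := by
    unfold eqn
    congr 2
    apply sum_congr rfl
    intro j _
    split_ifs with h
    · rfl
    · rw [hM i j h]
  rw [this]

variable {ι : Type} [LinearOrder ι] [Fintype ι]

theorem KM_congr (N : ℕ) (d : ι → ℕ) (mv : Finset ι) (r : ℕ) {A0 A0' : ι → ι → F2}
    {Fx Fx' : ι → ι → F} {ow ow' : ι → F} {x x' : ι → Fin n → Fin n → F2} (ξ : F) {s s' : Bt N d}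
    (hM : ∀ i j, r ∣ d i → r ∣ d j → j ≠ i → MM N d mv Fx ξ s i j = MM N d mv Fx' ξ s' i j)
    (hA : ∀ i, r ∣ d i → (∑ j, if j = i then 0 else AA N d mv A0 s i j) =
      ∑ j, if j = i then 0 else AA N d mv A0' s' i j)
    (how : ∀ i, r ∣ d i → ow i = ow' i) (hx : ∀ i, x i = x' i) :
    KM N d mv r A0 Fx ow x ξ s = KM N d mv r A0' Fx' ow' x' ξ s' := by
  unfold KM
  apply Kn_congr
  · intro i j hij
    exact hM i.1 j.1 i.2 j.2 fun h => hij (Subtype.ext h)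
  · intro i
    rw [how i.1 i.2, hA i.1 i.2]
  · exact fun i => hx i.1

theorem AAs_congr {N : ℕ} {d : ι → ℕ} {mv : Finset ι} {A0 A0' : ι → ι → F2} {s s' : Bt N d} {i : ι}
    (h : ∀ j, j ≠ i → AA N d mv A0 s i j = AA N d mv A0' s' i j) :
    (∑ j, if j = i then 0 else AA N d mv A0 s i j) =
      ∑ j, if j = i then 0 else AA N d mv A0' s' i j := by
  apply sum_congr rfl
  intro j _
  split_ifs with hj
  · rfl
  · exact h j hj

theorem AA_congr {N : ℕ} {d : ι → ℕ} {mv : Finset ι} (A0 : ι → ι → F2) {s s' : Bt N d}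
    (h : ∀ i j, i < j → i ∈ mv → j ∈ mv → s i j = s' i j) {i j : ι} (hij : j ≠ i) :
    AA N d mv A0 s i j = AA N d mv A0 s' i j := by
  unfold AA
  split_ifs with h1 h2
  · rw [h j i h2 h1.2 h1.1]
  · rw [h i j (lt_of_le_of_ne (not_lt.1 h2) (Ne.symm hij)) h1.1 h1.2]
  · rfl

theorem MM_congr {N : ℕ} {d : ι → ℕ} {mv : Finset ι} (Fx : ι → ι → F) (ξ : F) {s s' : Bt N d}
    (h : ∀ i j, i < j → i ∈ mv → j ∈ mv → s i j = s' i j) {i j : ι} (hij : j ≠ i) :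
    MM N d mv Fx ξ s i j = MM N d mv Fx ξ s' i j := by
  unfold MM
  split_ifs with h1 h2
  · rw [h j i h2 h1.2 h1.1]
  · rw [h i j (lt_of_le_of_ne (not_lt.1 h2) (Ne.symm hij)) h1.1 h1.2]
  · rfl

theorem KM_congr_s {N : ℕ} {d : ι → ℕ} {mv : Finset ι} {r : ℕ} {A0 : ι → ι → F2}
    {Fx : ι → ι → F} {ow : ι → F} {x : ι → Fin n → Fin n → F2} {ξ : F} {s s' : Bt N d}
    (h : ∀ i j, i < j → i ∈ mv → j ∈ mv → s i j = s' i j) :
    KM N d mv r A0 Fx ow x ξ s = KM N d mv r A0 Fx ow x ξ s' :=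
  KM_congr N d mv r ξ (fun i j _ _ hne => MM_congr _ _ h hne)
    (fun i _ => AAs_congr fun j hj => AA_congr _ h hj) (fun _ _ => rfl) fun _ => rfl

end congr

/-! ### the types -/

section types

variable {k : Type} [Field k] [Fintype k] {n : ℕ}

/-- the same types -/
structure Same {m : ℕ} (Δ : k[X]) (a : Fin n → k[X]) (P0 : Fin m → k[X]) (R : Finset (ℕ × ℕ))
    (T T' : Fin m → k[X]) : Prop where
  s1 : ∀ i j, L (P0 j) (T i) = L (P0 j) (T' i)
  s2 : ∀ i, ∀ Q ∈ pr Δ, L Q (T i) = L Q (T' i)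
  s3 : ∀ i j, ∀ p ∈ R, ∀ c < p.1, sy p.1 (P0 j) (T i) c = sy p.1 (P0 j) (T' i) c
  s4 : ∀ i, ∀ p ∈ R, ∀ c < p.1, sy p.1 (T i) (T i) c = sy p.1 (T' i) (T' i) c
  s5 : ∀ i, xb a (T i) = xb a (T' i)

variable {m : ℕ} {Δ : k[X]} {a : Fin n → k[X]} {P0 : Fin m → k[X]} {R : Finset (ℕ × ℕ)}
  {T T' T'' : Fin m → k[X]}

theorem Same.refl : Same Δ a P0 R T T :=
  ⟨fun _ _ => rfl, fun _ _ _ => rfl, fun _ _ _ _ _ _ => rfl, fun _ _ _ _ _ => rfl, fun _ => rfl⟩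

theorem Same.symm (h : Same Δ a P0 R T T') : Same Δ a P0 R T' T :=
  ⟨fun i j => (h.s1 i j).symm, fun i Q hQ => (h.s2 i Q hQ).symm,
    fun i j r hr c hc => (h.s3 i j r hr c hc).symm, fun i r hr c hc => (h.s4 i r hr c hc).symm,
    fun i => (h.s5 i).symm⟩

theorem Same.trans (h : Same Δ a P0 R T T') (h' : Same Δ a P0 R T' T'') : Same Δ a P0 R T T'' :=
  ⟨fun i j => (h.s1 i j).trans (h'.s1 i j), fun i Q hQ => (h.s2 i Q hQ).trans (h'.s2 i Q hQ),
    fun i j r hr c hc => (h.s3 i j r hr c hc).trans (h'.s3 i j r hr c hc),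
    fun i r hr c hc => (h.s4 i r hr c hc).trans (h'.s4 i r hr c hc),
    fun i => (h.s5 i).trans (h'.s5 i)⟩

/-- pairs of an element of `R` and a residue -/
abbrev SR (R : Finset (ℕ × ℕ)) : Type := Σ p : {p : ℕ × ℕ // p ∈ R}, Fin p.1.1

/-- the set of types -/
abbrev TT (n m : ℕ) (Δ : k[X]) (R : Finset (ℕ × ℕ)) : Type :=
  (Fin m → F2) × ({Q : k[X] // Q ∈ pr Δ} → F2) × (Fin m → SR R → F2) × (SR R → F2) ×
    (Fin n → Fin n → F2)

/-- the type of a polynomial -/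
noncomputable def ty (Δ : k[X]) (a : Fin n → k[X]) (P0 : Fin m → k[X]) (R : Finset (ℕ × ℕ))
    (P : k[X]) : TT n m Δ R :=
  (fun j => L (P0 j) P, fun Q => L Q.1 P, fun j x => sy x.1.1.1 (P0 j) P x.2,
    fun x => sy x.1.1.1 P P x.2, xb a P)

theorem same_of_ty (h : ∀ i, ty Δ a P0 R (T i) = ty Δ a P0 R (T' i)) : Same Δ a P0 R T T' := by
  refine ⟨fun i j => ?_, fun i Q hQ => ?_, fun i j r hr c hc => ?_, fun i r hr c hc => ?_,
    fun i => ?_⟩
  · exact congrFun (congrArg Prod.fst (h i)) j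
  · exact congrFun (congrArg (fun t => t.2.1) (h i)) ⟨Q, hQ⟩
  · exact congrFun (congrFun (congrArg (fun t => t.2.2.1) (h i)) j) ⟨⟨r, hr⟩, ⟨c, hc⟩⟩
  · exact congrFun (congrArg (fun t => t.2.2.2.1) (h i)) ⟨⟨r, hr⟩, ⟨c, hc⟩⟩
  · exact congrArg (fun t => t.2.2.2.2) (h i)

theorem card_TT (hpr : (pr Δ).card ≤ Δ.natDegree) :
    Fintype.card (TT n m Δ R) ≤ 2 ^ eT n Δ m R := by
  have h1 : Fintype.card (SR R) = ∑ p ∈ R, p.1 := by
    rw [Fintype.card_sigma]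
    simp only [Fintype.card_fin]
    exact Finset.sum_coe_sort R fun p => p.1
  have h2 : Fintype.card (TT n m Δ R) =
      2 ^ (m + ((pr Δ).card + (m * (∑ p ∈ R, p.1) + ((∑ p ∈ R, p.1) + n * n)))) := by
    simp only [Fintype.card_prod, Fintype.card_fun, Fintype.card_fin, ZMod.card, h1,
      Fintype.card_coe, pow_add, pow_mul]
    simp only [← pow_mul]
    rw [mul_comm (∑ r ∈ R, r.1) m]
  rw [h2]
  apply Nat.pow_le_pow_right (by norm_num)
  unfold eT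
  nlinarith [Nat.zero_le m, Nat.zero_le (∑ r ∈ R, r.1)]

/-- the elements of the cell -/
structure InC (Δ : k[X]) (P0 : Fin m → k[X]) (mv : Finset (Fin m)) (T : Fin m → k[X]) : Prop where
  fam : Pfam Δ T
  deg : ∀ i, (T i).natDegree = dg P0 i
  fix : ∀ i, i ∉ mv → T i = P0 i

variable {mv : Finset (Fin m)}

theorem same_A0 (hm : IsSquare (-1 : k)) (hT : InC Δ P0 mv T) (hT' : InC Δ P0 mv T')
    (h : Same Δ a P0 R T T') {i j : Fin m} (hij : ¬ (i ∈ mv ∧ j ∈ mv)) :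
    A0R T i j = A0R T' i j := by
  unfold A0R
  by_cases hj : j ∈ mv
  · have hi : i ∉ mv := fun hi => hij ⟨hi, hj⟩
    rw [L_comm hm, L_comm hm (T' j), hT.fix i hi, hT'.fix i hi]
    exact h.s1 j i
  · rw [hT.fix j hj, hT'.fix j hj]
    exact h.s1 i j

theorem same_AA (hm : IsSquare (-1 : k)) (hT : InC Δ P0 mv T) (hT' : InC Δ P0 mv T')
    (h : Same Δ a P0 R T T') {N : ℕ} (s : Bt N (dg P0)) (i j : Fin m) :
    AA N (dg P0) mv (A0R T) s i j = AA N (dg P0) mv (A0R T') s i j := by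
  unfold AA
  split_ifs with h1 h2
  · rfl
  · rfl
  · exact same_A0 hm hT hT' h h1

theorem same_Fx (hS : GR.S_SYP) (hk : ringChar k ≠ 2) (hm : IsSquare (-1 : k)) (hT : InC Δ P0 mv T)
    (hT' : InC Δ P0 mv T') (h : Same Δ a P0 R T T') {p : ℕ × ℕ} (hp : p ∈ R) {F : Type} [Field F]
    [Algebra F2 F] {ξ : F} (hξ : ξ ^ p.1 = 1) (hr0 : 0 < p.1) {i j : Fin m}
    (hi : p.1 ∣ dg P0 i) (hj : p.1 ∣ dg P0 j) (hne : j ≠ i) (hij : ¬ (i ∈ mv ∧ j ∈ mv)) :
    FxR p.1 ξ T i j = FxR p.1 ξ T' i j := by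
  unfold FxR
  rw [if_neg (Ne.symm hne), if_neg (Ne.symm hne)]
  by_cases hjm : j ∈ mv
  · have him : i ∉ mv := fun hi => hij ⟨hi, hjm⟩
    have key : ∀ T : Fin m → k[X], InC Δ P0 mv T →
        hv p.1 ξ (T j) (T i) = hv p.1 ξ⁻¹ (P0 i) (T j) := by
      intro T hT
      have h1 := (hS k hk hm (T i) (T j) p.1 (hT.fam.mon i) (hT.fam.irr i) (hT.fam.mon j)
        (hT.fam.irr j) hr0 (by rw [hT.deg]; exact hi) (by rw [hT.deg]; exact hj)).2.2.2.2.2
        (fun h => hne (hT.fam.inj h).symm) F ξ hξ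
      rw [h1, hT.fix i him]
    rw [key T hT, key T' hT']
    unfold hv
    apply sum_congr rfl
    intro c hc
    rw [h.s3 j i p hp c (mem_range.1 hc)]
  · rw [hT.fix j hjm, hT'.fix j hjm]
    unfold hv
    apply sum_congr rfl
    intro c hc
    rw [h.s3 i j p hp c (mem_range.1 hc)]

theorem same_ow (h : Same Δ a P0 R T T') {p : ℕ × ℕ} (hp : p ∈ R) {F : Type} [Field F]
    [Algebra F2 F] (ξ : F) (i : Fin m) : owR p.1 ξ T i = owR p.1 ξ T' i := by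
  unfold owR own
  apply sum_congr rfl
  intro c hc
  rw [h.s4 i p hp c (mem_range.1 hc)]

theorem same_KM (hS : GR.S_SYP) (hk : ringChar k ≠ 2) (hm : IsSquare (-1 : k)) (hT : InC Δ P0 mv T)
    (hT' : InC Δ P0 mv T') (h : Same Δ a P0 R T T') {p : ℕ × ℕ} (hp : p ∈ R) {F : Type} [Field F]
    [Algebra F2 F] {ξ : F} (hξ : ξ ^ p.1 = 1) (hr0 : 0 < p.1) {N : ℕ} (s : Bt N (dg P0)) :
    KM N (dg P0) mv p.1 (A0R T) (FxR p.1 ξ T) (owR p.1 ξ T) (xR a T) ξ s =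
    KM N (dg P0) mv p.1 (A0R T') (FxR p.1 ξ T') (owR p.1 ξ T') (xR a T') ξ s := by
  apply KM_congr
  · intro i j hi hj hne
    unfold MM
    split_ifs with h1 h2
    · rfl
    · rfl
    · exact same_Fx hS hk hm hT hT' h hp hξ hr0 hi hj hne h1
  · intro i _
    exact AAs_congr fun j _ => same_AA hm hT hT' h s i j
  · exact fun i _ => same_ow h hp ξ i
  · exact h.s5

/-- the property as a function of the symbols -/
def fA (Δ : k[X]) (a : Fin n → k[X]) (P0 : Fin m → k[X]) (mv : Finset (Fin m))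
    (R : Finset (ℕ × ℕ)) (f : k[X] → Prop) (T : Fin m → k[X]) (A : Fin m → Fin m → F2) : Prop :=
  ∃ T' : Fin m → k[X], InC Δ P0 mv T' ∧ Same Δ a P0 R T' T ∧
    (∀ i j, i ≠ j → A i j = L (T' j) (T' i)) ∧ f (∏ i, T' i)

theorem fA_congr {f : k[X] → Prop} (h : Same Δ a P0 R T T') {A A' : Fin m → Fin m → F2}
    (hA : ∀ i j, i ≠ j → A i j = A' i j) :
    fA Δ a P0 mv R f T A ↔ fA Δ a P0 mv R f T' A' := by
  constructor
  · rintro ⟨T1, h1, h2, h3, h4⟩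
    exact ⟨T1, h1, h2.trans h, fun i j hij => by rw [← hA i j hij, h3 i j hij], h4⟩
  · rintro ⟨T1, h1, h2, h3, h4⟩
    exact ⟨T1, h1, h2.trans h.symm, fun i j hij => by rw [hA i j hij, h3 i j hij], h4⟩

theorem fA_iff {f : k[X] → Prop} (hf : AdmD Δ f)
    (hpr : ∀ P, P ∈ pr Δ ↔ P.Monic ∧ Irreducible P ∧ P ∣ Δ)
    (hT : InC Δ P0 mv T) {A : Fin m → Fin m → F2}
    (hA : ∀ i j, i ≠ j → A i j = L (T j) (T i)) :
    fA Δ a P0 mv R f T A ↔ f (∏ i, T i) := by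
  constructor
  · rintro ⟨T1, h1, h2, h3, h4⟩
    refine (hf m T1 T h1.fam hT.fam (fun i => by rw [h1.deg, hT.deg]) (fun i j hij => ?_)
      (fun Q hQ1 hQ2 hQ3 i => ?_)).1 h4
    · rw [← h3 j i (Ne.symm hij), hA j i (Ne.symm hij)]
    · exact h2.s2 i Q ((hpr Q).2 ⟨hQ1, hQ2, hQ3⟩)
  · intro h
    exact ⟨T, hT, Same.refl, hA, h⟩

/-! ### the error term -/

theorem erT_mono (N : ℕ) (P0 : Fin m → k[X]) (mv : Finset (Fin m)) {τ τ' : ℝ} (h0 : 0 ≤ τ)
    (h : τ ≤ τ') : erT N P0 mv τ ≤ erT N P0 mv τ' := by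
  unfold erT
  apply sum_le_sum
  intro i _
  apply sum_le_sum
  intro j _
  split_ifs with hij
  · apply Real.sqrt_le_sqrt
    apply mul_le_mul_of_nonneg_right _ (by positivity)
    exact mul_le_mul_of_nonneg_right h (by positivity)
  · exact le_refl _

theorem erT_nonneg (N : ℕ) (P0 : Fin m → k[X]) (mv : Finset (Fin m)) (τ : ℝ) :
    0 ≤ erT N P0 mv τ := by
  unfold erT
  apply sum_nonneg
  intro i _
  apply sum_nonneg
  intro j _
  split_ifs
  · exact Real.sqrt_nonneg _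
  · exact le_refl _

end types

/-- the powers of the roots of unity -/
theorem rt_pow {r u : ℕ} (h : IsRt r (xi r)) (hu : Nat.Coprime u r) : IsRt r (xi r ^ u) := by
  refine ⟨h.odd, h.lt, ?_, h.card⟩
  rw [Nat.Coprime.orderOf_pow (by rw [h.ord]; exact hu.symm), h.ord]

theorem pow_rt {r : ℕ} {F : Type} [Field F] [Fintype F] [Algebra F2 F] {ξ : F} (h : IsRt r ξ) :
    ξ ^ r = 1 := by
  have := pow_orderOf_eq_one ξ
  rwa [h.ord] at this

/-- the numerical part -/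
theorem numer {n c e e' ν π S1 S2 N1 N2 : ℝ} (hn : 0 < n) (hc : 0 ≤ c) (he : e' ≤ e) (he0 : 0 ≤ e')
    (hπ0 : 0 ≤ π) (hπ1 : π ≤ 1) (h1 : |S1 - N1 / n| ≤ c * e') (h2 : |S2 - N2 / n| ≤ c * e')
    (h3 : π * N2 - n * (ν * c) ≤ N1) : π * S2 - (ν + 2 * e) * c ≤ S1 := by
  have h4 : N1 / n - c * e' ≤ S1 := by
    have := (abs_le.1 h1).1
    linarith
  have h5 : S2 - c * e' ≤ N2 / n := by
    have := (abs_le.1 h2).2
    linarith
  have h6 : π * (N2 / n) - ν * c ≤ N1 / n := by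
    rw [le_div_iff₀ hn]
    have e1 : (π * (N2 / n) - ν * c) * n = π * N2 - n * (ν * c) := by
      field_simp
    rw [e1]
    exact h3
  have h7 : π * (S2 - c * e') ≤ π * (N2 / n) := mul_le_mul_of_nonneg_left h5 hπ0
  have h8 : c * e' ≤ c * e := mul_le_mul_of_nonneg_left he hc
  have h9 : π * (c * e') ≤ c * e' := by
    have := mul_le_mul_of_nonneg_right hπ1 (mul_nonneg hc he0)
    linarith
  nlinarith

theorem t_CLA (h1 : GR.S_TRF) (h2 : S_REA) (h3 : S_NIC) (h4 : S_LAR) (h5 : GR.S_PRD) (h6 : GR.S_XIR)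
    (h7 : GR.S_SYP) (h8 : GR.S_UNR) : S_CLA := by
  intro k _ _ hk hm hq Δ hΔ n hn hn3 a N m P0 mv R hCe hN hR hIsR hy f hf
  set C : Finset (Fin m → k[X]) := Fintype.piFinset (Ce P0 mv) with hC
  obtain ⟨-, -, -, hprc, hpr, hcell⟩ := h5 k Δ hΔ
  have hIn : ∀ T ∈ C, InC Δ P0 mv T := fun T hT => by
    obtain ⟨g1, g2, g3⟩ := hcell m P0 mv hCe T hT
    exact ⟨g1, g2, g3⟩
  have hN0 : 0 < N := hN.pos
  have hxi : ∀ p ∈ R, IsRt p.1 (xi p.1 ^ p.2) := fun p hp =>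
    rt_pow (h6 p.1 (hIsR.1 p hp).1 (hIsR.1 p hp).2.1) (hIsR.1 p hp).2.2
  have hpow : ∀ p ∈ R, (xi p.1 ^ p.2) ^ p.1 = 1 := fun p hp => pow_rt (hxi p hp)
  -- the two properties
  set Ψ2 : (Fin m → k[X]) → Bt N (dg P0) → Prop := fun T s =>
    fA Δ a P0 mv R f T (AA N (dg P0) mv (A0R T) s) with hΨ2
  set Ψ1 : (Fin m → k[X]) → Bt N (dg P0) → Prop := fun T s => Ψ2 T s ∧ ∀ p ∈ R,
    KM N (dg P0) mv p.1 (A0R T) (FxR p.1 (xi p.1 ^ p.2) T) (owR p.1 (xi p.1 ^ p.2) T) (xR a T)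
      (xi p.1 ^ p.2) s = ⊥ with hΨ1
  -- the first hypothesis of TRF
  have hA2 : ∀ T ∈ C, ∀ T' ∈ C, (∀ i, ty Δ a P0 R (T i) = ty Δ a P0 R (T' i)) →
      ∀ s, Ψ2 T s ↔ Ψ2 T' s := by
    intro T hT T' hT' hty s
    have hs := same_of_ty hty
    exact fA_congr hs fun i j _ => same_AA hm (hIn T hT) (hIn T' hT') hs s i j
  have hA1 : ∀ T ∈ C, ∀ T' ∈ C, (∀ i, ty Δ a P0 R (T i) = ty Δ a P0 R (T' i)) →
      ∀ s, Ψ1 T s ↔ Ψ1 T' s := by
    intro T hT T' hT' hty s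
    have hs := same_of_ty hty
    rw [hΨ1]
    refine and_congr (hA2 T hT T' hT' hty s) (forall_congr' fun r => forall_congr' fun hr => ?_)
    rw [same_KM h7 hk hm (hIn T hT) (hIn T' hT') hs hr
      (hpow r hr) (by have := (hxi r hr).lt; omega) s]
  -- the second hypothesis
  have hB2 : ∀ T s s', (∀ i j, i < j → i ∈ mv → j ∈ mv → s i j = s' i j) → (Ψ2 T s ↔ Ψ2 T s') := by
    intro T s s' h
    exact fA_congr Same.refl fun i j hij => AA_congr _ h (Ne.symm hij)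
  have hB1 : ∀ T s s', (∀ i j, i < j → i ∈ mv → j ∈ mv → s i j = s' i j) → (Ψ1 T s ↔ Ψ1 T s') := by
    intro T s s' h
    rw [hΨ1]
    refine and_congr (hB2 T s s' h) (forall_congr' fun r => forall_congr' fun hr => ?_)
    rw [KM_congr_s (s' := s') h]
  -- the values
  have hV2 : ∀ T ∈ C, (Ψ2 T (sT N P0 T) ↔ f (∏ i, T i)) := by
    intro T hT
    have hrea := (h2 k hk hm Δ hΔ n a N m P0 mv hN0 hCe T hT).1
    exact fA_iff hf hpr (hIn T hT) hrea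
  have hV1 : ∀ T ∈ C, (Ψ1 T (sT N P0 T) ↔ f (∏ i, T i) ∧ ∀ p ∈ R,
      KD p.1 (xi p.1 ^ p.2) a (∏ i, T i) = ⊥) := by
    intro T hT
    have hrea := (h2 k hk hm Δ hΔ n a N m P0 mv hN0 hCe T hT).2.2
    rw [hΨ1]
    refine and_congr (hV2 T hT) (forall_congr' fun p => forall_congr' fun hp => ?_)
    exact (hrea p.1 (Fr p.1) (xi p.1 ^ p.2) (hxi p hp) (hR p hp)).2
  -- TRF
  have hT1 := h1 k hk hq Δ hΔ N m P0 mv hN0 hCe (TT n m Δ R) (fun _ => ty Δ a P0 R) Ψ1 hA1 hB1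
  have hT2 := h1 k hk hq Δ hΔ N m P0 mv hN0 hCe (TT n m Δ R) (fun _ => ty Δ a P0 R) Ψ2 hA2 hB2
  rw [← hC] at hT1 hT2
  -- nice elements
  have hdl : ∀ p ∈ R, 0 ≤ 1 - dl p.1 ∧ 0 ≤ dl p.1 := fun p hp => by
    obtain ⟨-, -, -, g1, g2, -⟩ := h8 p.1 (Fr p.1) (xi p.1 ^ p.2) (hxi p hp)
    exact ⟨g1, g2⟩
  have hπ0 : 0 ≤ ∏ p ∈ R, (1 - dl p.1) := prod_nonneg fun p hp => (hdl p hp).1
  have hπ1 : ∏ p ∈ R, (1 - dl p.1) ≤ 1 :=
    prod_le_one (fun p hp => (hdl p hp).1) fun p hp => by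
      have := (hdl p hp).2
      linarith
  set π : ℝ := ∏ p ∈ R, (1 - dl p.1) with hπ
  set B : ℝ := (Fintype.card (Bt N (dg P0)) : ℝ) with hB
  have hB0 : 0 < B := by
    rw [hB]
    exact_mod_cast Fintype.card_pos
  have hle : ∀ T : Fin m → k[X], ((((univ : Finset (Bt N (dg P0))).filter fun s => Ψ2 T s).card : ℕ) : ℝ) ≤ B := by
    intro T
    rw [hB]
    exact_mod_cast card_le_univ _
  set Bad : ℕ × ℕ → (Fin m → k[X]) → Prop := fun p T =>
    ¬ Nice (dg P0) mv p.1 (FxR p.1 (xi p.1 ^ p.2) T) (xR a T) with hBad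
  have hpt : ∀ T ∈ C, π * (((univ.filter fun s => Ψ2 T s).card : ℕ) : ℝ) -
      B * ∑ p ∈ R, (if Bad p T then (1 : ℝ) else 0) ≤ (((univ.filter fun s => Ψ1 T s).card : ℕ) : ℝ) := by
    intro T hT
    by_cases hnice : ∀ p ∈ R, ¬ Bad p T
    · have hz : ∑ p ∈ R, (if Bad p T then (1 : ℝ) else 0) = 0 :=
        sum_eq_zero fun r hr => if_neg (hnice r hr)
      rw [hz, mul_zero, sub_zero]
      have hrea := (h2 k hk hm Δ hΔ n a N m P0 mv hN0 hCe T hT).2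
      have h9 := h4 (Fin m) N (dg P0) mv hN n hn hn3 {p : ℕ × ℕ // p ∈ R} (fun c => c.1.1)
        (fun c => hR c.1 c.2) (fun c => Fr c.1.1) (fun c => xi c.1.1 ^ c.1.2)
        (fun c => hxi c.1 c.2)
        (fun c c' hcc => hIsR.2 c.1 c.2 c'.1 c'.2 fun h => hcc (Subtype.ext h))
        (A0R T) (fun c => FxR c.1.1 (xi c.1.1 ^ c.1.2) T) (fun c => owR c.1.1 (xi c.1.1 ^ c.1.2) T)
        (xR a T) hrea.1
        (fun c => (hrea.2 c.1.1 (Fr c.1.1) (xi c.1.1 ^ c.1.2) (hxi c.1 c.2) (hR c.1 c.2)).1)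
        (fun c => not_not.1 (hnice c.1 c.2)) (fun A => fA Δ a P0 mv R f T A)
      have e1 : ∏ c : {p : ℕ × ℕ // p ∈ R}, (1 - dl c.1.1) = π :=
        Finset.prod_coe_sort R fun p => 1 - dl p.1
      rw [e1] at h9
      refine h9.trans (Nat.cast_le.2 (card_le_card fun s hs => ?_))
      rw [mem_filter] at hs ⊢
      exact ⟨hs.1, hs.2.1, fun p hp => hs.2.2 ⟨p, hp⟩⟩
    · push Not at hnice
      obtain ⟨r, hr, hb⟩ := hnice
      have h9 : (1 : ℝ) ≤ ∑ p ∈ R, (if Bad p T then (1 : ℝ) else 0) := by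
        have h10 : (if Bad r T then (1 : ℝ) else 0) ≤ ∑ p ∈ R, (if Bad p T then (1 : ℝ) else 0) :=
          single_le_sum (f := fun p => if Bad p T then (1 : ℝ) else 0)
            (fun r _ => by split_ifs <;> norm_num) hr
        rwa [if_pos hb] at h10
      have h11 : π * (((univ.filter fun s => Ψ2 T s).card : ℕ) : ℝ) ≤ B := by
        calc π * (((univ.filter fun s => Ψ2 T s).card : ℕ) : ℝ)
            ≤ 1 * (((univ.filter fun s => Ψ2 T s).card : ℕ) : ℝ) :=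
              mul_le_mul_of_nonneg_right hπ1 (Nat.cast_nonneg _)
          _ ≤ B := by rw [one_mul]; exact hle T
      have h12 : B * 1 ≤ B * ∑ p ∈ R, (if Bad p T then (1 : ℝ) else 0) :=
        mul_le_mul_of_nonneg_left h9 hB0.le
      have h13 : (0 : ℝ) ≤ (((univ.filter fun s => Ψ1 T s).card : ℕ) : ℝ) := Nat.cast_nonneg _
      linarith
  have hsum : π * (∑ T ∈ C, (((univ.filter fun s => Ψ2 T s).card : ℕ) : ℝ)) -
      B * ((∑ p ∈ R, nn n P0 mv p.1) * C.card) ≤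
      ∑ T ∈ C, (((univ.filter fun s => Ψ1 T s).card : ℕ) : ℝ) := by
    have h9 := sum_le_sum hpt
    rw [sum_sub_distrib, ← mul_sum, ← mul_sum, sum_comm] at h9
    have h10 : ∑ p ∈ R, ∑ T ∈ C, (if Bad p T then (1 : ℝ) else 0) ≤
        (∑ p ∈ R, nn n P0 mv p.1) * C.card := by
      rw [sum_mul]
      apply sum_le_sum
      intro p hp
      have h11 := h3 k hk hm hq Δ hΔ n (by omega) a m P0 mv hCe p.1 (Fr p.1) (xi p.1 ^ p.2) (hxi p hp) (hy p hp)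
      rw [sum_boole]
      exact h11
    have h11 := mul_le_mul_of_nonneg_left h10 hB0.le
    linarith
  have hfin := numer (e := erT N P0 mv (2 ^ eT n Δ m R)) (ν := ∑ p ∈ R, nn n P0 mv p.1)
    (π := π) hB0 (Nat.cast_nonneg C.card)
    (erT_mono N P0 mv (Nat.cast_nonneg (Fintype.card (TT n m Δ R)))
      (by exact_mod_cast card_TT hprc)) (erT_nonneg _ _ _ _) hπ0 hπ1 hT1 hT2
    (by convert hsum)
  have e1 : ∀ (inst : DecidablePred fun T => Ψ2 T (sT N P0 T)),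
      @Finset.filter _ (fun T => Ψ2 T (sT N P0 T)) inst C = C.filter fun T => f (∏ i, T i) := by
    intro inst
    ext T
    rw [mem_filter, mem_filter]
    exact and_congr_right fun hT => hV2 T hT
  have e2 : ∀ (inst : DecidablePred fun T => Ψ1 T (sT N P0 T)),
      @Finset.filter _ (fun T => Ψ1 T (sT N P0 T)) inst C =
      C.filter fun T => f (∏ i, T i) ∧ ∀ p ∈ R, KD p.1 (xi p.1 ^ p.2) a (∏ i, T i) = ⊥ := by
    intro inst
    ext T
    rw [mem_filter, mem_filter]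
    exact and_congr_right fun hT => hV1 T hT
  rw [e1, e2] at hfin
  exact hfin

end Pool.Agent.Q53.GJ
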