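import Pool.Agent.Q53.GJ.CLA

/-!
# Project GJ, job CLC: cells for a large order

Adapted from `Pool/Agent/Q68/GR/CLC.lean`.
-/

set_option autoImplicit false
set_option linter.all false

open scoped Classical
open Finset Polynomial

namespace Pool.Agent.Q53.GJ

open Pool.Agent.Q269
open Pool.Agent.Q269.GJ
open Pool.Agent.Q269.GR (F2 cf ev Un Eb dl IsRt gg Bt AA MM ts HU HG Herm hv own Irn Dn pr Fr xi Pfam dg
  Ce IsCe sT erT FxR owR A0R tn XA XB sy)
open Pool.Agent.Y164.PS (L sg L_comm)

section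

variable {k : Type} [Field k] [Fintype k]

/-- the type of the types -/
abbrev TyC (n r : ℕ) : Type := F2 × (Fin n → Fin n → F2) × (Fin ((r - 1) / 2) → F2)

/-- the types -/
noncomputable def tyC {n : ℕ} (a : Fin n → k[X]) {m : ℕ} (P0 : Fin m → k[X]) (mv : Finset (Fin m))
    (r : ℕ) (P : k[X]) : TyC n r :=
  (∑ j ∈ univ.filter (fun j => ¬ j ∈ mv), L (P0 j) P, xb a P, fun c => sy r P P (c + 1))

theorem card_TyC (n r : ℕ) : (Fintype.card (TyC n r) : ℝ) = 2 ^ (n ^ 2 + 1) * 2 ^ ((r - 1) / 2) := by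
  have h2 : Fintype.card F2 = 2 := ZMod.card 2
  simp only [Fintype.card_prod, Fintype.card_fun, Fintype.card_fin, h2]
  push_cast
  rw [← pow_mul, pow_succ, sq]
  ring

variable {F : Type} [Field F] [Algebra F2 F]

theorem two_eq : (1 : F) + 1 = 0 := by
  have h : (1 : F2) + 1 = 0 := by decide
  have := congrArg (algebraMap F2 F) h
  simpa using this

theorem own_eq_half {r : ℕ} (ho : Odd r) {ξ : F} {P P' : k[X]}
    (hs : ∀ c < r, 0 < c → sy r P P c = sy r P P (r - c))
    (hs' : ∀ c < r, 0 < c → sy r P' P' c = sy r P' P' (r - c))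
    (h : ∀ c : Fin ((r - 1) / 2), sy r P P (c + 1) = sy r P' P' (c + 1)) :
    own r ξ P = own r ξ P' := by
  have low : ∀ c, 0 < c → c ≤ (r - 1) / 2 → sy r P P c = sy r P' P' c := by
    intro c h0 h1
    have := h ⟨c - 1, by omega⟩
    simp only [Nat.sub_add_cancel h0] at this
    exact this
  unfold own
  refine sum_congr rfl fun c hc => ?_
  have hc' : c < r := mem_range.1 hc
  rcases Nat.eq_zero_or_pos c with rfl | h0
  · rw [pow_zero, two_eq, mul_zero, mul_zero]
  · by_cases hle : c ≤ (r - 1) / 2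
    · rw [low c h0 hle]
    · have : sy r P P c = sy r P' P' c := by
        rw [hs c hc' h0, hs' c hc' h0]
        refine low (r - c) (by omega) ?_
        obtain ⟨t, rfl⟩ := ho
        omega
      rw [this]

/-- the model kernel depends on the types only -/
theorem KM_typesC (h5 : GR.S_PRD) (h7 : GR.S_SYP) (hk : ringChar k ≠ 2) (hm : IsSquare (-1 : k))
    {Δ : k[X]} (hΔ : Δ ≠ 0) {n : ℕ} (a : Fin n → k[X]) {m : ℕ} {P0 : Fin m → k[X]}
    {mv : Finset (Fin m)} (hC : IsCe Δ P0 mv) {r : ℕ} (ho : Odd r)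
    (hmv : ∀ i, i ∈ mv ↔ r ∣ dg P0 i) {ξ : F}
    {T T' : Fin m → k[X]} (hT : T ∈ Fintype.piFinset (Ce P0 mv))
    (hT' : T' ∈ Fintype.piFinset (Ce P0 mv))
    (ht : ∀ i, tyC a P0 mv r (T i) = tyC a P0 mv r (T' i)) (s : Bt r (dg P0)) :
    KM r (dg P0) mv r (A0R T) (FxR r ξ T) (owR r ξ T) (xR a T) ξ s =
    KM r (dg P0) mv r (A0R T') (FxR r ξ T') (owR r ξ T') (xR a T') ξ s := by
  obtain ⟨hF, hd, hfix⟩ := (h5 k _ hΔ).2.2.2.2.2 m P0 mv hC T hT
  obtain ⟨hF', hd', hfix'⟩ := (h5 k _ hΔ).2.2.2.2.2 m P0 mv hC T' hT'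
  have hr : 0 < r := ho.pos
  have b1 : ∀ i, ∑ j ∈ univ.filter (fun j => ¬ j ∈ mv), L (P0 j) (T i) =
      ∑ j ∈ univ.filter (fun j => ¬ j ∈ mv), L (P0 j) (T' i) := fun i =>
    congrArg Prod.fst (ht i)
  have b2 : ∀ i, xb a (T i) = xb a (T' i) := fun i => congrArg (fun x => x.2.1) (ht i)
  have b4 : ∀ i (c : Fin ((r - 1) / 2)), sy r (T i) (T i) (c + 1) = sy r (T' i) (T' i) (c + 1) :=
    fun i c => congrFun (congrArg (fun x => x.2.2) (ht i)) c
  have hsplit : ∀ (U : Fin m → k[X]), (∀ i, i ∉ mv → U i = P0 i) → ∀ i, r ∣ dg P0 i →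
      ∑ j, (if j = i then 0 else AA r (dg P0) mv (A0R U) s i j) =
        ∑ j ∈ univ.filter (fun j => j ∈ mv),
          (if j = i then 0 else if j < i then ∑ c, s j i c else ∑ c, s i j c) +
        ∑ j ∈ univ.filter (fun j => ¬ j ∈ mv), L (P0 j) (U i) := by
    intro U hU i hi
    have him : i ∈ mv := (hmv i).2 hi
    rw [← sum_filter_add_sum_filter_not univ (fun j => j ∈ mv)]
    congr 1
    · refine sum_congr rfl fun j hj => ?_
      have hjm : j ∈ mv := (mem_filter.1 hj).2
      by_cases hji : j = i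
      · rw [if_pos hji, if_pos hji]
      · rw [if_neg hji, if_neg hji]
        unfold AA
        rw [if_pos ⟨him, hjm⟩]
    · refine sum_congr rfl fun j hj => ?_
      have hjm : j ∉ mv := (mem_filter.1 hj).2
      have hji : ¬ j = i := fun h => hjm (h ▸ him)
      rw [if_neg hji]
      unfold AA
      rw [if_neg (fun h => hjm h.2)]
      change L (U j) (U i) = _
      rw [hU j hjm]
  refine KM_congr r (dg P0) mv r ξ ?_ ?_ ?_ ?_
  · intro i j hi hj hij
    have hh : i ∈ mv ∧ j ∈ mv := ⟨(hmv i).2 hi, (hmv j).2 hj⟩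
    unfold MM
    rw [if_pos hh, if_pos hh]
  · intro i hi
    rw [hsplit T hfix i hi, hsplit T' hfix' i hi, b1 i]
  · intro i hi
    have hdi : r ∣ (T i).natDegree := by rw [hd]; exact hi
    have hdi' : r ∣ (T' i).natDegree := by rw [hd']; exact hi
    exact own_eq_half ho
      (h7 k hk hm (T i) (T i) r (hF.mon i) (hF.irr i) (hF.mon i) (hF.irr i) hr hdi hdi).2.2.2.1
      (h7 k hk hm (T' i) (T' i) r (hF'.mon i) (hF'.irr i) (hF'.mon i) (hF'.irr i) hr hdi'
        hdi').2.2.2.1 (b4 i)
  · intro i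
    exact b2 i

/-- the operator of the weights -/
noncomputable def lpm {n : ℕ} (x : Fin n → Fin n → F2) : Module.End F (Fin n → F) where
  toFun := lap x
  map_add' := lap_add x
  map_smul' := lap_smul x

/-- the eigenvalues -/
theorem eig_card [Fintype F] {n : ℕ} (x : Fin n → Fin n → F2) :
    ((univ : Finset F).filter fun d => ∃ w : Fin n → F, w ≠ 0 ∧ d • w + lap x w = 0).card ≤ n := by
  have h1 : ((univ : Finset F).filter fun d => ∃ w : Fin n → F, w ≠ 0 ∧ d • w + lap x w = 0).image
      (fun d => -d) ⊆ (LinearMap.charpoly (lpm (F := F) x)).roots.toFinset := by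
    intro e he
    rw [mem_image] at he
    obtain ⟨d, hd, rfl⟩ := he
    obtain ⟨w, hw, hdw⟩ := (mem_filter.1 hd).2
    have hne : LinearMap.charpoly (lpm (F := F) x) ≠ 0 := (LinearMap.charpoly_monic _).ne_zero
    rw [Multiset.mem_toFinset, Polynomial.mem_roots hne]
    rw [← Module.End.hasEigenvalue_iff_isRoot_charpoly]
    apply Module.End.hasEigenvalue_of_hasEigenvector (x := w)
    refine ⟨?_, hw⟩
    rw [Module.End.mem_eigenspace_iff]
    change lap x w = (-d) • w
    rw [neg_smul]
    exact eq_neg_of_add_eq_zero_right hdw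
  have h2 := card_le_card h1
  rw [card_image_of_injective _ neg_injective] at h2
  refine h2.trans ((Multiset.toFinset_card_le _).trans ((Polynomial.card_roots' _).trans ?_))
  rw [LinearMap.charpoly_natDegree, Module.finrank_fin_fun]

/-- the values of the own symbol for which a system of size one can be singular -/
noncomputable def YY (F : Type) [Field F] [Fintype F] [Algebra F2 F] (n : ℕ) : Finset F :=
  (univ : Finset ((Fin n → Fin n → F2) × F2)).biUnion fun z =>
    ((univ : Finset F).filter fun d => ∃ w : Fin n → F, w ≠ 0 ∧ d • w + lap z.1 w = 0).image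
      fun d => d - cf z.2

theorem YY_card [Fintype F] (n : ℕ) : (YY F n).card ≤ 2 ^ (n ^ 2 + 1) * n := by
  unfold YY
  refine (card_biUnion_le_card_mul _ _ n fun z _ => card_image_le.trans (eig_card z.1)).trans ?_
  apply le_of_eq
  congr 1
  have h2 : Fintype.card F2 = 2 := ZMod.card 2
  rw [card_univ]
  simp only [Fintype.card_prod, Fintype.card_fun, Fintype.card_fin, h2]
  rw [← pow_mul, pow_succ, sq]

theorem YY_mem [Fintype F] {n : ℕ} {o : F} {u : F2} {x : Fin n → Fin n → F2} {w : Fin n → F}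
    (hw : w ≠ 0) (h : (o + cf u) • w + lap x w = 0) : o ∈ YY F n := by
  unfold YY
  rw [mem_biUnion]
  refine ⟨(x, u), mem_univ _, mem_image.2 ⟨o + cf u, mem_filter.2 ⟨mem_univ _, w, hw, h⟩, ?_⟩⟩
  exact add_sub_cancel_right _ _

/-- one coordinate of a product -/
theorem card_pi_filter {m : ℕ} {β : Type} (S : Fin m → Finset β) (i₀ : Fin m) (p : β → Prop)
    [DecidablePred p] [DecidablePred fun T : Fin m → β => p (T i₀)] (c : ℝ) (h : (((S i₀).filter p).card : ℝ) ≤ c * (S i₀).card) :
    (((Fintype.piFinset S).filter fun T => p (T i₀)).card : ℝ) ≤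
      c * (Fintype.piFinset S).card := by
  have e : ((Fintype.piFinset S).filter fun T => p (T i₀)) =
      Fintype.piFinset (Function.update S i₀ ((S i₀).filter p)) := by
    ext T
    simp only [mem_filter, Fintype.mem_piFinset]
    constructor
    · rintro ⟨h1, h2⟩ i
      by_cases hi : i = i₀
      · subst hi
        rw [Function.update_self, mem_filter]
        exact ⟨h1 i, h2⟩
      · rw [Function.update_of_ne hi]
        exact h1 i
    · intro h1
      have h2 := h1 i₀
      rw [Function.update_self, mem_filter] at h2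
      refine ⟨fun i => ?_, h2.2⟩
      by_cases hi : i = i₀
      · subst hi
        exact h2.1
      · have := h1 i
        rw [Function.update_of_ne hi] at this
        exact this
  rw [e, Fintype.card_piFinset, Fintype.card_piFinset]
  push_cast
  rw [← mul_prod_erase univ (fun i => ((Function.update S i₀ ((S i₀).filter p) i).card : ℝ))
    (mem_univ i₀), ← mul_prod_erase univ (fun i => ((S i).card : ℝ)) (mem_univ i₀)]
  have e2 : ∏ i ∈ univ.erase i₀, ((Function.update S i₀ ((S i₀).filter p) i).card : ℝ) =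
      ∏ i ∈ univ.erase i₀, ((S i).card : ℝ) := by
    refine prod_congr rfl fun i hi => ?_
    rw [Function.update_of_ne (ne_of_mem_erase hi)]
  simp only [Function.update_self]
  rw [e2, ← mul_assoc]
  exact mul_le_mul_of_nonneg_right h (prod_nonneg fun i _ => Nat.cast_nonneg _)

end

/-- the event -/
def BadP {k : Type} [Field k] [Fintype k] {n : ℕ} (a : Fin n → k[X]) {m : ℕ} (P0 : Fin m → k[X])
    (mv : Finset (Fin m)) (r u : ℕ) (T : Fin m → k[X]) (s : Bt r (dg P0)) : Prop :=
  KM r (dg P0) mv r (A0R T) (FxR r (xi r ^ u) T) (owR r (xi r ^ u) T) (xR a T) (xi r ^ u) s ≠ ⊥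

theorem t_CLC (h1 : GR.S_TRF) (h2 : S_REA) (h3 : S_LB2) (h4 : S_CNY) (h5 : GR.S_PRD)
    (h6 : GR.S_XIR) (h7 : GR.S_SYP) : S_CLC := by
  intro k _ _ hk hm hq Δ hΔ n hn hn3 a m P0 mv r hodd hr1 hmv hC u hu
  have hr0 : 0 < r := by omega
  have hrt : IsRt r (xi r ^ u) := rt_pow (h6 r hodd hr1) hu
  set C := Fintype.piFinset (Ce P0 mv) with hCdef
  have hrea := fun T (hT : T ∈ C) => (h2 k hk hm Δ hΔ n a r m P0 mv hr0 hC T hT)
  have hrea2 := fun T (hT : T ∈ C) => (hrea T hT).2.2 r (Fr r) (xi r ^ u) hrt dvd_rfl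
  have hfil : (C.filter fun T => KD r (xi r ^ u) a (∏ i, T i) ≠ ⊥) =
      C.filter fun T => BadP a P0 mv r u T (sT r P0 T) := by
    refine filter_congr fun T hT => ?_
    have := (hrea2 T hT).2
    exact not_congr this.symm
  rw [hfil]
  by_cases hc2 : 2 ≤ mv.card
  · rw [if_pos hc2]
    have htrf := h1 k hk hq Δ hΔ r m P0 mv hr0 hC (TyC n r)
      (fun _ P => tyC a P0 mv r P) (BadP a P0 mv r u) (by
        intro T hT T' hT' ht s
        have := KM_typesC h5 h7 hk hm hΔ a hC hodd hmv (ξ := xi r ^ u) hT hT' ht s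
        unfold BadP
        rw [this]) (by
        intro T s s' hs
        have := KM_congr_s (r := r) (A0 := A0R T) (Fx := FxR r (xi r ^ u) T)
          (ow := owR r (xi r ^ u) T) (x := xR a T) (ξ := xi r ^ u) hs
        unfold BadP
        rw [this])
    rw [card_TyC] at htrf
    have hBpos : (0 : ℝ) < Fintype.card (Bt r (dg P0)) := by
      exact_mod_cast Fintype.card_pos
    have hsum : ∑ T ∈ C, ((univ.filter fun s => BadP a P0 mv r u T s).card : ℝ) ≤
        (n * mv.card / 2 ^ (orderOf (2 : ZMod r) / 2)) * C.card *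
          Fintype.card (Bt r (dg P0)) := by
      have e1 : ∀ T ∈ C, ((univ.filter fun s => BadP a P0 mv r u T s).card : ℝ) ≤
          (n * mv.card / 2 ^ (orderOf (2 : ZMod r) / 2)) * Fintype.card (Bt r (dg P0)) := by
        intro T hT
        have := h3 (Fin m) (dg P0) mv r hmv hc2 n hn hn3 (Fr r) (xi r ^ u) hrt (A0R T)
          (FxR r (xi r ^ u) T) (owR r (xi r ^ u) T) (xR a T) (hrea T hT).2.1 (hrea2 T hT).1
        convert this using 3
        ext s
        simp only [mem_filter, BadP]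
      refine (sum_le_sum e1).trans (le_of_eq ?_)
      rw [sum_const, nsmul_eq_mul]
      ring
    have hdiv : (∑ T ∈ C, ((univ.filter fun s => BadP a P0 mv r u T s).card : ℝ)) /
        Fintype.card (Bt r (dg P0)) ≤
          (n * mv.card / 2 ^ (orderOf (2 : ZMod r) / 2)) * C.card := by
      rw [div_le_iff₀ hBpos]
      exact hsum
    have habs := (abs_le.1 htrf).2
    rw [← hCdef] at habs
    rw [add_mul]
    linarith
  · rw [if_neg hc2]
    by_cases hc1 : mv.card = 1
    · rw [if_pos hc1]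
      obtain ⟨i₀, hi₀⟩ := card_eq_one.1 hc1
      have hri₀ : r ∣ dg P0 i₀ := (hmv i₀).1 (by rw [hi₀]; exact mem_singleton_self _)
      have hJ : ∀ j : {i : Fin m // r ∣ dg P0 i}, j = ⟨i₀, hri₀⟩ := by
        intro j
        have : j.1 ∈ mv := (hmv j.1).2 j.2
        rw [hi₀, mem_singleton] at this
        exact Subtype.ext this
      have hd0 : 0 < dg P0 i₀ := (hC.fam.irr i₀).natDegree_pos
      have hsub : (C.filter fun T => BadP a P0 mv r u T (sT r P0 T)) ⊆
          C.filter fun T => own r (xi r ^ u) (T i₀) ∈ YY (Fr r) n := by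
        intro T hT
        rw [mem_filter] at hT ⊢
        refine ⟨hT.1, ?_⟩
        obtain ⟨w, hw, hw0⟩ := Submodule.exists_mem_ne_zero_of_ne_bot hT.2
        have hw' : w ⟨i₀, hri₀⟩ ≠ 0 := by
          intro h0
          refine hw0 (funext fun j => ?_)
          rw [hJ j]
          exact h0
        have heq := mem_Kn.1 hw ⟨i₀, hri₀⟩
        unfold eqn at heq
        rw [sum_eq_zero (fun j _ => by rw [hJ j, if_pos rfl, zero_smul]), zero_add] at heq
        refine YY_mem (w := (w ⟨i₀, hri₀⟩).1) (fun h => hw' (Subtype.ext h)) heq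
      have hcny : (((Irn k (dg P0 i₀)).filter fun P => own r (xi r ^ u) P ∈ YY (Fr r) n).card : ℝ) ≤
          n * 2 ^ (n ^ 2 + 4) / 2 ^ (orderOf (2 : ZMod r) / 4) * (Irn k (dg P0 i₀)).card := by
        have e1 : ((Irn k (dg P0 i₀)).filter fun P => own r (xi r ^ u) P ∈ YY (Fr r) n) ⊆
            (YY (Fr r) n).biUnion fun y => (Irn k (dg P0 i₀)).filter fun P => own r (xi r ^ u) P = y := by
          intro P hP
          rw [mem_filter] at hP
          rw [mem_biUnion]
          exact ⟨_, hP.2, mem_filter.2 ⟨hP.1, rfl⟩⟩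
        have e2 : (((Irn k (dg P0 i₀)).filter fun P => own r (xi r ^ u) P ∈ YY (Fr r) n).card : ℝ) ≤
            ∑ y ∈ YY (Fr r) n,
              (((Irn k (dg P0 i₀)).filter fun P => own r (xi r ^ u) P = y).card : ℝ) := by
          exact_mod_cast (card_le_card e1).trans card_biUnion_le
        refine e2.trans ((sum_le_sum fun y _ => h4 k hk hm hq r (Fr r) (xi r ^ u) hrt (dg P0 i₀) hd0
          hri₀ y).trans ?_)
        rw [sum_const, nsmul_eq_mul]
        have e3 : ((YY (Fr r) n).card : ℝ) ≤ 2 ^ (n ^ 2 + 1) * n := by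
          exact_mod_cast YY_card (F := Fr r) n
        have e4 : (0 : ℝ) < 2 ^ (orderOf (2 : ZMod r) / 4) := by positivity
        have e5 : (0 : ℝ) ≤ 6 / 2 ^ (orderOf (2 : ZMod r) / 4) * (Irn k (dg P0 i₀)).card := by
          positivity
        refine (mul_le_mul_of_nonneg_right e3 e5).trans ?_
        rw [← mul_assoc]
        refine mul_le_mul_of_nonneg_right ?_ (Nat.cast_nonneg _)
        rw [← mul_div_assoc, div_le_div_iff_of_pos_right e4]
        have e6 : (0 : ℝ) ≤ 2 ^ (n ^ 2 + 1) * n := by positivity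
        have e7 : (n : ℝ) * 2 ^ (n ^ 2 + 4) = 8 * (2 ^ (n ^ 2 + 1) * n) := by
          rw [show n ^ 2 + 4 = (n ^ 2 + 1) + 3 from rfl, pow_add _ (n ^ 2 + 1) 3]
          ring
        rw [e7]
        linarith
      have hCe : Ce P0 mv i₀ = Irn k (dg P0 i₀) := by
        unfold Ce
        rw [if_pos (by rw [hi₀]; exact mem_singleton_self _)]
      rw [← hCe] at hcny
      have h8 := card_pi_filter (Ce P0 mv) i₀
        (fun P => own r (xi r ^ u) P ∈ YY (Fr r) n) _ hcny
      refine le_trans ?_ h8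
      exact Nat.cast_le.2 (card_le_card hsub)
    · rw [if_neg hc1, zero_mul]
      have hc0 : mv.card = 0 := by omega
      have hmv0 : mv = ∅ := card_eq_zero.1 hc0
      have : (C.filter fun T => BadP a P0 mv r u T (sT r P0 T)) = ∅ := by
        refine filter_eq_empty_iff.2 fun T _ h => h ?_
        rw [Submodule.eq_bot_iff]
        intro w _
        funext j
        exfalso
        have := (hmv j.1).2 j.2
        rw [hmv0] at this
        exact notMem_empty _ this
      rw [this]
      simp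

end Pool.Agent.Q53.GJ
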